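import Pool.Agent.Q97.UM.Stm8
import Pool.Agent.H370R2.Kern

set_option autoImplicit false

/-!
Project UM2 (helper97), job SUPC: extreme values of Dirichlet polynomials at the simple critical zeros.
-/

namespace Pool.Agent.Q204.UM

open Filter Topology MeasureTheory Complex Pool.Agent.Q97.UM

noncomputable section

/-- Dirichlet convolution against a completely multiplicative function -/
theorem gs_mul (g : ℕ → ℂ) (hg : ∀ m n, g (m * n) = g m * g n) (N M : ℕ) (b c : ℕ → ℂ)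
    (hb : ∀ n, N < n → b n = 0) (hc : ∀ n, M < n → c n = 0) :
    (∑ n ∈ Finset.Icc 1 N, b n * g n) * (∑ n ∈ Finset.Icc 1 M, c n * g n) =
      ∑ n ∈ Finset.Icc 1 (N * M), cv b c n * g n := by
  unfold cv
  rw [Finset.sum_mul_sum, ← Finset.sum_product']
  rw [← Finset.sum_fiberwise_of_maps_to (t := Finset.Icc 1 (N * M)) (g := fun p : ℕ × ℕ => p.1 * p.2)]
  · refine Finset.sum_congr rfl fun n hn => ?_
    rw [Finset.mem_Icc] at hn
    rw [Finset.sum_mul]
    refine Finset.sum_subset_zero_on_sdiff ?_ ?_ ?_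
    · intro p hp
      rw [Finset.mem_filter] at hp
      rw [Nat.mem_divisorsAntidiagonal]
      exact ⟨hp.2, by omega⟩
    · intro p hp
      rw [Finset.mem_sdiff, Nat.mem_divisorsAntidiagonal, Finset.mem_filter, Finset.mem_product,
        Finset.mem_Icc, Finset.mem_Icc] at hp
      obtain ⟨⟨h1, h2⟩, h3⟩ := hp
      have h4 : p.1 ≠ 0 := by rintro h; rw [h] at h1; simp at h1; omega
      have h5 : p.2 ≠ 0 := by rintro h; rw [h] at h1; simp at h1; omega
      by_cases h6 : N < p.1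
      · rw [hb _ h6]; ring
      · by_cases h7 : M < p.2
        · rw [hc _ h7]; ring
        · exact absurd ⟨⟨⟨by omega, by omega⟩, ⟨by omega, by omega⟩⟩, h1⟩ h3
    · intro p hp
      rw [Finset.mem_filter] at hp
      rw [← hp.2, hg]
      ring
  · intro p hp
    rw [Finset.mem_product, Finset.mem_Icc, Finset.mem_Icc] at hp
    rw [Finset.mem_Icc]
    exact ⟨Nat.mul_pos (by omega) (by omega), Nat.mul_le_mul hp.1.2 hp.2.2⟩

/-- convolution powers -/
def cp (b : ℕ → ℂ) : ℕ → ℕ → ℂ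
  | 0 => fun n => if n = 1 then 1 else 0
  | (k + 1) => cv b (cp b k)

/-- restriction to `[1, N]` -/
def rs (N : ℕ) (b : ℕ → ℂ) (n : ℕ) : ℂ := if 1 ≤ n ∧ n ≤ N then b n else 0

theorem cp_supp (N : ℕ) (b : ℕ → ℂ) : ∀ k n : ℕ, cp (rs N b) k n ≠ 0 →
    ∃ e : Fin N → ℕ, (∀ j, e j ≤ k) ∧ n = ∏ j : Fin N, ((j : ℕ) + 1) ^ e j := by
  intro k
  induction k with
  | zero =>
    intro n hn
    refine ⟨fun _ => 0, fun _ => le_rfl, ?_⟩
    have h : n = 1 := by
      by_contra h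
      exact hn (by simp [cp, h])
    simp [h]
  | succ k ih =>
    intro n hn
    have h1 : ∑ p ∈ n.divisorsAntidiagonal, rs N b p.1 * cp (rs N b) k p.2 ≠ 0 := hn
    obtain ⟨p, hp, hp0⟩ := Finset.exists_ne_zero_of_sum_ne_zero h1
    rw [Nat.mem_divisorsAntidiagonal] at hp
    have h2 : rs N b p.1 ≠ 0 := left_ne_zero_of_mul hp0
    have h3 : cp (rs N b) k p.2 ≠ 0 := right_ne_zero_of_mul hp0
    have h4 : 1 ≤ p.1 ∧ p.1 ≤ N := by
      by_contra h
      exact h2 (by simp [rs, h])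
    obtain ⟨e, he, hen⟩ := ih p.2 h3
    let j0 : Fin N := ⟨p.1 - 1, by omega⟩
    refine ⟨fun j => e j + (if j = j0 then 1 else 0), fun j => ?_, ?_⟩
    · have := he j
      show e j + (if j = j0 then 1 else 0) ≤ k + 1
      split_ifs <;> omega
    · have h5 : ∏ j : Fin N, ((j : ℕ) + 1) ^ (e j + (if j = j0 then 1 else 0)) =
          (∏ j : Fin N, ((j : ℕ) + 1) ^ e j) * ∏ j : Fin N, (if j = j0 then ((j : ℕ) + 1) else 1) := by
        rw [← Finset.prod_mul_distrib]
        refine Finset.prod_congr rfl fun j _ => ?_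
        by_cases h : j = j0
        · simp [h, pow_succ]
        · simp [h]
      rw [h5, Finset.prod_ite_eq' Finset.univ j0 (fun j : Fin N => (j : ℕ) + 1), ← hen, ← hp.1]
      simp only [Finset.mem_univ, if_true]
      have h6 : ((j0 : Fin N) : ℕ) + 1 = p.1 := by
        show p.1 - 1 + 1 = p.1
        omega
      rw [h6]
      ring

theorem cp_zero (N : ℕ) (b : ℕ → ℂ) : ∀ k n : ℕ, N ^ k < n → cp (rs N b) k n = 0 := by
  intro k n hn
  by_contra h
  induction k generalizing n with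
  | zero =>
    apply h
    simp only [pow_zero] at hn
    simp only [cp]
    rw [if_neg (by omega)]
  | succ k ih =>
    have h1 : ∑ p ∈ n.divisorsAntidiagonal, rs N b p.1 * cp (rs N b) k p.2 ≠ 0 := h
    obtain ⟨p, hp, hp0⟩ := Finset.exists_ne_zero_of_sum_ne_zero h1
    rw [Nat.mem_divisorsAntidiagonal] at hp
    have h2 : rs N b p.1 ≠ 0 := left_ne_zero_of_mul hp0
    have h3 : cp (rs N b) k p.2 ≠ 0 := right_ne_zero_of_mul hp0
    have h4 : 1 ≤ p.1 ∧ p.1 ≤ N := by
      by_contra h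
      exact h2 (by simp [rs, h])
    have h5 : p.2 ≤ N ^ k := by
      by_contra h6
      exact ih p.2 (by omega) h3
    have h6 : n ≤ N ^ (k + 1) := by
      rw [← hp.1, pow_succ, mul_comm (N ^ k)]
      exact Nat.mul_le_mul h4.2 h5
    omega

theorem rs_zero (N : ℕ) (b : ℕ → ℂ) (n : ℕ) (hn : N < n) : rs N b n = 0 := by
  unfold rs
  rw [if_neg (by omega)]

theorem rs_sum (N : ℕ) (b g : ℕ → ℂ) : ∑ n ∈ Finset.Icc 1 N, rs N b n * g n = ∑ n ∈ Finset.Icc 1 N, b n * g n := by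
  refine Finset.sum_congr rfl fun n hn => ?_
  rw [Finset.mem_Icc] at hn
  unfold rs
  rw [if_pos hn]

theorem gs_pow (g : ℕ → ℂ) (hg1 : g 1 = 1) (hg : ∀ m n, g (m * n) = g m * g n) (N : ℕ) (b : ℕ → ℂ) (k : ℕ) :
    (∑ n ∈ Finset.Icc 1 N, b n * g n) ^ k = ∑ n ∈ Finset.Icc 1 (N ^ k), cp (rs N b) k n * g n := by
  induction k with
  | zero => simp [cp, hg1]
  | succ k ih =>
    rw [pow_succ, ih, mul_comm, ← rs_sum N b g, gs_mul g hg N (N ^ k) _ _ (rs_zero N b) (cp_zero N b k), pow_succ,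
      mul_comm N]
    rfl

/-- the possible products -/
def DS (N k : ℕ) : Finset ℕ :=
  Finset.univ.image (fun e : Fin N → Fin (k + 1) => ∏ j : Fin N, ((j : ℕ) + 1) ^ ((e j : ℕ)))

theorem DS_card (N k : ℕ) : (DS N k).card ≤ (k + 1) ^ N := by
  unfold DS
  refine Finset.card_image_le.trans ?_
  simp

theorem cp_DS (N k : ℕ) (b : ℕ → ℂ) (n : ℕ) (h : cp (rs N b) k n ≠ 0) : n ∈ DS N k := by
  obtain ⟨e, he, hn⟩ := cp_supp N b k n h
  unfold DS
  rw [Finset.mem_image]
  refine ⟨fun j => ⟨e j, by have := he j; omega⟩, Finset.mem_univ _, ?_⟩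
  simp only
  exact hn.symm

/-- Cauchy-Schwarz -/
theorem cs (N k : ℕ) (b χ : ℕ → ℂ) (h1 : χ 1 = 1) (hm : ∀ m n, χ (m * n) = χ m * χ n) (hb : ∀ n, ‖χ n‖ ≤ 1) :
    (‖∑ n ∈ Finset.Icc 1 N, b n * χ n / (Real.sqrt n : ℂ)‖ ^ k) ^ 2 ≤ ((k + 1 : ℕ) : ℝ) ^ N * N2 (N ^ k) (cp (rs N b) k) := by
  set g : ℕ → ℂ := fun n => χ n / (Real.sqrt n : ℂ) with hgd
  have hg1 : g 1 = 1 := by simp [hgd, h1]
  have hg : ∀ m n, g (m * n) = g m * g n := by
    intro m n
    simp only [hgd, hm, Nat.cast_mul]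
    rw [Real.sqrt_mul (Nat.cast_nonneg m), Complex.ofReal_mul]
    rw [div_mul_div_comm]
  have e1 : ∑ n ∈ Finset.Icc 1 N, b n * χ n / (Real.sqrt n : ℂ) = ∑ n ∈ Finset.Icc 1 N, b n * g n := by
    refine Finset.sum_congr rfl fun n _ => ?_
    simp only [hgd]
    ring
  rw [e1, ← norm_pow, gs_pow g hg1 hg N b k]
  set c := cp (rs N b) k with hc
  have e2 : ∑ n ∈ Finset.Icc 1 (N ^ k), c n * g n = ∑ n ∈ (Finset.Icc 1 (N ^ k)).filter (fun n => n ∈ DS N k), c n * g n := by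
    rw [Finset.sum_filter]
    refine Finset.sum_congr rfl fun n _ => ?_
    by_cases h : n ∈ DS N k
    · rw [if_pos h]
    · rw [if_neg h]
      have : c n = 0 := by
        by_contra h0
        exact h (cp_DS N k b n h0)
      rw [this, zero_mul]
  rw [e2]
  set A := (Finset.Icc 1 (N ^ k)).filter (fun n => n ∈ DS N k) with hA
  have hAc : (A.card : ℝ) ≤ ((k + 1 : ℕ) : ℝ) ^ N := by
    have : A.card ≤ (k + 1) ^ N := by
      refine le_trans (Finset.card_le_card (t := DS N k) ?_) (DS_card N k)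
      intro n hn
      rw [hA, Finset.mem_filter] at hn
      exact hn.2
    exact_mod_cast this
  have e3 : ‖∑ n ∈ A, c n * g n‖ ≤ ∑ n ∈ A, 1 * (‖c n‖ / Real.sqrt n) := by
    refine (norm_sum_le _ _).trans (Finset.sum_le_sum fun n hn => ?_)
    rw [norm_mul, one_mul]
    simp only [hgd, norm_div, Complex.norm_real, Real.norm_eq_abs, abs_of_nonneg (Real.sqrt_nonneg _)]
    rw [mul_div_assoc']
    exact div_le_div_of_nonneg_right (mul_le_of_le_one_right (norm_nonneg _) (hb n)) (Real.sqrt_nonneg _)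
  have e4 : (∑ n ∈ A, 1 * (‖c n‖ / Real.sqrt n)) ^ 2 ≤ (∑ n ∈ A, (1 : ℝ) ^ 2) * ∑ n ∈ A, (‖c n‖ / Real.sqrt n) ^ 2 :=
    Finset.sum_mul_sq_le_sq_mul_sq A _ _
  have e5 : ∑ n ∈ A, (‖c n‖ / Real.sqrt n) ^ 2 ≤ N2 (N ^ k) c := by
    unfold N2
    refine le_trans (le_of_eq (Finset.sum_congr rfl fun n _ => ?_)) (Finset.sum_le_sum_of_subset_of_nonneg (Finset.filter_subset _ _)
      fun n _ _ => by positivity)
    rw [div_pow, Real.sq_sqrt (Nat.cast_nonneg n)]
  have e6 : (∑ n ∈ A, (1 : ℝ) ^ 2) = A.card := by simp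
  have hN2 : 0 ≤ N2 (N ^ k) c := Finset.sum_nonneg fun n _ => by positivity
  calc ‖∑ n ∈ A, c n * g n‖ ^ 2 ≤ (∑ n ∈ A, 1 * (‖c n‖ / Real.sqrt n)) ^ 2 := by
        exact pow_le_pow_left₀ (norm_nonneg _) e3 2
    _ ≤ _ := e4
    _ ≤ (A.card : ℝ) * N2 (N ^ k) c := by rw [e6]; exact mul_le_mul_of_nonneg_left e5 (Nat.cast_nonneg _)
    _ ≤ _ := mul_le_mul_of_nonneg_right hAc hN2

/-- the values of `dp` at powers -/
theorem dp_pow (N k : ℕ) (b : ℕ → ℂ) (t : ℝ) : dp N b t ^ k = dp (N ^ k) (cp (rs N b) k) t := by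
  unfold dp
  refine gs_pow (fun n => (n : ℂ) ^ (-(1 / 2 + t * I))) (by simp) ?_ N b k
  intro m n
  simp only [Nat.cast_mul]
  rw [Complex.natCast_mul_natCast_cpow]

/-- the numerical conditions on `T` -/
theorem large (θ : ℝ) (hθ : 0 < θ) : ∀ᶠ T : ℝ in atTop, 1 ≤ Real.log (Real.log T) ∧ 0 < T ∧
    2 * Real.log (Real.log T) ≤ θ * Real.log T ∧ 2 * Real.log T / 4 + 1 ≤ Real.log T ∧ 0 < Real.log T := by
  have h1 : ∀ᶠ x : ℝ in atTop, 1 ≤ Real.log x := Real.tendsto_log_atTop.eventually_ge_atTop 1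
  have h2 : ∀ᶠ x : ℝ in atTop, 2 * Real.log x ≤ θ * x := by
    have := (Real.isLittleO_log_id_atTop.def (show (0 : ℝ) < θ / 2 by positivity))
    filter_upwards [this, eventually_ge_atTop (1 : ℝ)] with x hx hx1
    simp only [id, Real.norm_eq_abs] at hx
    rw [abs_of_nonneg (Real.log_nonneg hx1), abs_of_nonneg (by linarith)] at hx
    linarith
  have h3 : ∀ᶠ x : ℝ in atTop, 2 ≤ x := eventually_ge_atTop 2
  filter_upwards [Real.tendsto_log_atTop.eventually h1, eventually_gt_atTop 0, Real.tendsto_log_atTop.eventually h2,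
    Real.tendsto_log_atTop.eventually h3] with T a1 a2 a3 a4
  exact ⟨a1, a2, a3, by linarith, by linarith⟩

theorem t_SUPC : J_SUPC := by
  intro hS _
  obtain ⟨θ, hθ, hθ2, hev⟩ := hS (1 / 100) (by norm_num)
  have hmt := H370.cMTinv_lt
  refine ⟨θ / 4, by positivity, ?_⟩
  filter_upwards [hev, large θ hθ] with T hT hlg
  obtain ⟨hLL, hT0, hL2, hL4, hL⟩ := hlg
  intro N ε hε hε1 hNε b χ hχ1 hχm hχb
  set L := Real.log T with hLd
  set ℓ := Real.log L with hld
  have hpi := Real.pi_gt_three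
  have hpi4 := Real.pi_lt_four
  have hU : 0 < L / (2 * Real.pi) := by positivity
  -- the number of zeros
  have hT1 : 1 < T := by
    by_contra h
    exact absurd (Real.log_nonpos hT0.le (by linarith)) (by linarith)
  have hT2 : ((1 : ℕ) : ℝ) ≤ T ^ θ := by
    rw [Nat.cast_one]
    exact Real.one_le_rpow hT1.le hθ.le
  have hone := hT 1 hT2 (fun _ => 1)
  have hN21 : N2 1 (fun _ => (1 : ℂ)) = 1 := by simp [N2]
  have hdp1 : ∀ t : ℝ, dp 1 (fun _ => (1 : ℂ)) t = 1 := by intro t; simp [dp]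
  obtain ⟨hA1, -, hC1⟩ := hone
  simp only [hN21, hdp1, norm_one, one_pow, mul_one, Finset.sum_const, nsmul_eq_mul] at hA1 hC1
  have hZS : ((H370.Zf riemannZeta T (2 * T)).filter (fun s => s.re = 1 / 2 ∧ mz s = 1)) = ZS T := by
    unfold ZS
    congr
  have hcl : ((ZS T).card : ℝ) ≤ ∑ s ∈ H370.Zf riemannZeta T (2 * T), (mz s : ℝ) := by
    have : ((ZS T).card : ℝ) = ∑ s ∈ ZS T, (mz s : ℝ) := by
      rw [Finset.sum_congr rfl (g := fun _ => (1 : ℝ))]
      · simp
      · intro s hs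
        unfold ZS at hs
        rw [Finset.mem_filter] at hs
        rw [hs.2.2, Nat.cast_one]
    rw [this]
    unfold ZS
    exact Finset.sum_le_sum_of_subset_of_nonneg (Finset.filter_subset _ _) fun _ _ _ => Nat.cast_nonneg _
  have hcu : ((ZS T).card : ℝ) ≤ 2 * (L / (2 * Real.pi) * T) := by
    have h1 := (abs_le.mp hC1).2
    have h2 : (1 / 100 : ℝ) * L * T ≤ L / (2 * Real.pi) * T := by
      refine mul_le_mul_of_nonneg_right ?_ hT0.le
      rw [div_eq_mul_inv, mul_comm]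
      refine mul_le_mul_of_nonneg_left ?_ hL.le
      rw [le_inv_comm₀ (by norm_num) (by positivity)]
      linarith
    linarith
  have hpos : 0 < (ZS T).card := by
    have h0 : 0 < (2 - H370.cMTinv - 1 / 100) * (L / (2 * Real.pi)) * T := by
      have : 0 < 2 - H370.cMTinv - 1 / 100 := by linarith
      positivity
    have h1 : (0 : ℝ) < (ZS T).card := by
      refine lt_of_lt_of_le h0 (le_trans hA1 (le_of_eq ?_))
      rw [← hZS]
    exact_mod_cast h1
  have hne : (ZS T).Nonempty := Finset.card_pos.mp hpos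
  -- the maximum
  obtain ⟨s₀, hs₀, hmax⟩ := Finset.exists_max_image (ZS T) (fun s => ‖dp N b s.im‖) hne
  refine ⟨s₀, hs₀, ?_⟩
  set M := ‖dp N b s₀.im‖ with hM
  set X := ‖∑ n ∈ Finset.Icc 1 N, b n * χ n / (Real.sqrt n : ℂ)‖ with hX
  rcases Nat.lt_or_ge N 2 with hN | hN
  · interval_cases N
    · have : X = 0 := by simp [hX]
      rw [this, mul_zero]
      exact norm_nonneg _
    · have h1 : X = ‖b 1‖ := by simp [hX, hχ1]
      have h2 : M = ‖b 1‖ := by simp [hM, dp]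
      rw [h1, h2]
      nlinarith [norm_nonneg (b 1)]
  by_contra hcon
  rw [not_le] at hcon
  have hM0 : 0 ≤ M := norm_nonneg _
  have hX0 : 0 < X := by
    by_contra h
    have : X = 0 := le_antisymm (not_lt.mp h) (norm_nonneg _)
    rw [this, mul_zero] at hcon
    linarith
  have hNr : (2 : ℝ) ≤ N := by exact_mod_cast hN
  have hlN : 0 < Real.log N := Real.log_pos (by linarith)
  have hlN2 : 1 / 2 ≤ Real.log N := by
    have h1 : Real.log 2 ≤ Real.log N := Real.log_le_log (by norm_num) hNr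
    have := Real.log_two_gt_d9
    linarith
  have hNL : (N : ℝ) ≤ L := by
    have h1 : (N : ℝ) * 1 ≤ N * ℓ ^ 2 := mul_le_mul_of_nonneg_left (by nlinarith) (Nat.cast_nonneg _)
    have h2 : θ / 4 * ε * L ≤ 1 * L := mul_le_mul_of_nonneg_right (by nlinarith) hL.le
    linarith
  have hlNl : Real.log N ≤ ℓ := Real.log_le_log (by linarith) hNL
  set k := ⌊θ * L / Real.log N⌋₊ with hk
  have hkle : (k : ℝ) ≤ θ * L / Real.log N := Nat.floor_le (by positivity)
  have hkge : θ * L / Real.log N < k + 1 := Nat.lt_floor_add_one _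
  have hq2 : 2 ≤ θ * L / Real.log N := by
    rw [le_div_iff₀ hlN]
    linarith
  have hk2 : θ * L / (2 * ℓ) ≤ k := by
    have h1 : θ * L / (2 * ℓ) ≤ (θ * L / Real.log N) / 2 := by
      rw [div_div]
      refine div_le_div_of_nonneg_left (by positivity) (by positivity) ?_
      linarith
    linarith
  have hk0 : (1 : ℝ) < k + 1 := by
    have : (0:ℝ) < k := lt_of_lt_of_le (by positivity) hk2
    linarith
  have hkpos : 0 < k := by
    have : (0:ℝ) < k := by linarith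
    exact_mod_cast this
  have hkL : (k : ℝ) + 1 ≤ L := by
    have h1 : θ * L / Real.log N ≤ 2 * L / 4 := by
      rw [div_le_iff₀ hlN]
      nlinarith
    linarith
  -- apply the sampling theorem to the k-th power
  have hNk : ((N ^ k : ℕ) : ℝ) ≤ T ^ θ := by
    rw [Nat.cast_pow, ← Real.log_le_log_iff (by positivity) (by positivity), Real.log_pow, Real.log_rpow hT0]
    rw [le_div_iff₀ hlN] at hkle
    exact hkle
  obtain ⟨hA, -, -⟩ := hT (N ^ k) hNk (cp (rs N b) k)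
  set Q := N2 (N ^ k) (cp (rs N b) k) with hQ
  have hQ0 : 0 ≤ Q := Finset.sum_nonneg fun n _ => by positivity
  have hup : ∑ s ∈ (H370.Zf riemannZeta T (2 * T)).filter (fun s => s.re = 1 / 2 ∧ mz s = 1),
      ‖dp (N ^ k) (cp (rs N b) k) s.im‖ ^ 2 ≤ ((ZS T).card : ℝ) * (M ^ k) ^ 2 := by
    rw [← nsmul_eq_mul]
    refine le_trans (le_of_eq ?_) (Finset.sum_le_card_nsmul (ZS T) (fun s => ‖dp (N ^ k) (cp (rs N b) k) s.im‖ ^ 2) _ fun s hs => ?_)
    · unfold ZS
      rfl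
    · rw [← dp_pow N k b, norm_pow]
      exact pow_le_pow_left₀ (by positivity) (pow_le_pow_left₀ (norm_nonneg _) (hmax s hs) k) 2
  have hQM : Q ≤ 6 * (M ^ k) ^ 2 := by
    have h1 : (1 / 3) * (L / (2 * Real.pi)) * (T * Q) ≤ 2 * (L / (2 * Real.pi) * T) * (M ^ k) ^ 2 := by
      refine le_trans ?_ (le_trans hA (le_trans hup (mul_le_mul_of_nonneg_right hcu (by positivity))))
      refine mul_le_mul_of_nonneg_right (mul_le_mul_of_nonneg_right (by linarith) hU.le) (by positivity)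
    have h2 : 0 < (L / (2 * Real.pi)) * T := by positivity
    have h3 : (L / (2 * Real.pi)) * T * Q ≤ (L / (2 * Real.pi)) * T * (6 * (M ^ k) ^ 2) := by linarith
    exact le_of_mul_le_mul_left h3 h2
  have hcs := cs N k b χ hχ1 hχm hχb
  rw [← hX] at hcs
  -- conclusion
  have hk1 : (1 : ℝ) ≤ ((k + 1 : ℕ) : ℝ) ^ N := one_le_pow₀ (by push_cast; linarith)
  have hfin : (X ^ k) ^ 2 ≤ ((k + 1 : ℕ) : ℝ) ^ N * (6 * (((1 - ε) * X) ^ k) ^ 2) := by
    refine hcs.trans (mul_le_mul_of_nonneg_left (hQM.trans ?_) (by positivity))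
    have : M ^ k ≤ ((1 - ε) * X) ^ k := pow_le_pow_left₀ hM0 hcon.le k
    have h0 : 0 ≤ M ^ k := by positivity
    nlinarith
  have hfin2 : 1 ≤ ((k + 1 : ℕ) : ℝ) ^ N * 6 * (1 - ε) ^ (2 * k) := by
    have h1 : 0 < (X ^ k) ^ 2 := by positivity
    have h2 : ((k + 1 : ℕ) : ℝ) ^ N * (6 * (((1 - ε) * X) ^ k) ^ 2) =
        (((k + 1 : ℕ) : ℝ) ^ N * 6 * (1 - ε) ^ (2 * k)) * (X ^ k) ^ 2 := by
      rw [mul_pow, mul_pow, mul_comm 2 k, pow_mul]
      ring
    rw [h2] at hfin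
    by_contra h3
    rw [not_le] at h3
    have := mul_lt_mul_of_pos_right h3 h1
    linarith
  have h1ε : 0 < 1 - ε := by linarith
  have hlog := Real.log_le_log (by norm_num) hfin2
  have hke1 : (0:ℝ) < ((k + 1 : ℕ) : ℝ) := by positivity
  rw [Real.log_one, Real.log_mul (by positivity) (by positivity), Real.log_mul (by positivity) (by norm_num), Real.log_pow,
    Real.log_pow] at hlog
  have hl1 : Real.log (1 - ε) ≤ -ε := by
    have := Real.log_le_sub_one_of_pos h1ε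
    linarith
  have hl2 : Real.log ((k + 1 : ℕ) : ℝ) ≤ ℓ := by
    refine Real.log_le_log hke1 ?_
    push_cast
    linarith
  have hl3 : Real.log 6 < 2 := by
    have h1 : Real.log 6 < Real.log (Real.exp 2) := by
      refine Real.log_lt_log (by norm_num) ?_
      have : Real.exp 2 = Real.exp 1 * Real.exp 1 := by rw [← Real.exp_add]; norm_num
      rw [this]
      have := Real.exp_one_gt_d9
      nlinarith
    rwa [Real.log_exp] at h1
  have hl4 : (N : ℝ) * Real.log ((k + 1 : ℕ) : ℝ) ≤ N * ℓ := mul_le_mul_of_nonneg_left hl2 (Nat.cast_nonneg _)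
  have hkl : θ * L ≤ 2 * (k * ℓ) := by
    rw [div_le_iff₀ (by positivity)] at hk2
    linarith
  have hl5 : N * ℓ ≤ k * ε / 2 := by
    have h1 : (N * ℓ) * ℓ ≤ (k * ε / 2) * ℓ := by
      have : θ / 4 * ε * L ≤ ε * (2 * (k * ℓ)) / 4 := by
        have := mul_le_mul_of_nonneg_left hkl hε.le
        linarith
      nlinarith
    exact le_of_mul_le_mul_right h1 (by linarith)
  have hl6 : (4 : ℝ) ≤ k * ε := by
    have : 2 * 1 ≤ (N : ℝ) * ℓ := mul_le_mul hNr hLL (by norm_num) (by positivity)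
    linarith
  have hl7 : ((2 * k : ℕ) : ℝ) * Real.log (1 - ε) ≤ -(2 * (k * ε)) := by
    push_cast
    have := mul_le_mul_of_nonneg_left hl1 (show (0:ℝ) ≤ 2 * k by positivity)
    linarith
  linarith

end

end Pool.Agent.Q204.UM
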